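import Pool.Agent.H18.QGR.Stmts

/-!
# Board `qgr`, row FKR
-/

set_option autoImplicit false

noncomputable section

namespace Pool.QGR

open Pool.CGR

/-- **FKR** -/
theorem fkr_thm (h1 : COMStmt) : FKRStmt := by
  intro m q hq i w
  induction w with
  | nil =>
    have e1 : an q i (Finsupp.single [] (1 : ℂ)) = 0 := by
      unfold an
      rw [Finsupp.linearCombination_single, one_smul]
      simp
    have e2 : ar q i (Finsupp.single [] (1 : ℂ)) = 0 := by
      unfold ar
      rw [Finsupp.linearCombination_single, one_smul]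
      simp
    have e3 : cn i (Finsupp.single [] (1 : ℂ)) = Finsupp.single [i] 1 := by
      unfold cn
      rw [Finsupp.lmapDomain_apply, Finsupp.mapDomain_single]
    have e4 : sn i (Finsupp.single [] (1 : ℂ)) = Finsupp.single [i] 1 := by
      unfold sn
      rw [Finsupp.lmapDomain_apply, Finsupp.mapDomain_single]
      rfl
    have e5 : Fk q [] = (Finsupp.single [] 1 : E m) := rfl
    have e6 : Fk q ([] ++ [i]) = X q i (Fk q []) := rfl
    rw [e6, e5]
    unfold X Xr
    rw [LinearMap.add_apply, LinearMap.add_apply, e1, e2, e3, e4]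
  | cons j w ih =>
    have e1 : Fk q (j :: w ++ [i]) = X q j (Fk q (w ++ [i])) := rfl
    have e2 : Fk q (j :: w) = X q j (Fk q w) := rfl
    rw [e1, ih, e2]
    exact h1 m q hq i j (Fk q w)

end Pool.QGR
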