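import Pool.Agent.H18.QGR.Stmts

/-!
# Board `qgr`, row SMB
-/

set_option autoImplicit false

noncomputable section

open Filter
open scoped Topology

namespace Pool.QGR

open Pool.CGR

namespace SMB2

theorem tr_succ (k : ℕ) : tr (k + 1) = tr k + (k + 1) := by
  unfold tr
  have h : (k + 1) * (k + 1 + 1) = k * (k + 1) + (k + 1) * 2 := by ring
  rw [h, Nat.add_mul_div_right _ _ (by norm_num)]

theorem half (Q D : ℝ) (hQ0 : 0 ≤ Q) (hQ1 : Q < 1) (hD : 0 ≤ D) :
    Summable fun k : ℕ => D ^ k * Q ^ tr k := by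
  refine summable_of_ratio_norm_eventually_le (r := 1 / 2) (by norm_num) ?_
  have h1 : Tendsto (fun k : ℕ => D * Q ^ (k + 1)) atTop (𝓝 (D * 0)) :=
    ((tendsto_pow_atTop_nhds_zero_of_lt_one hQ0 hQ1).comp (tendsto_add_atTop_nat 1)).const_mul D
  rw [mul_zero] at h1
  have h2 : ∀ᶠ k : ℕ in atTop, D * Q ^ (k + 1) ≤ 1 / 2 :=
    (h1.eventually_lt_const (by norm_num : (0 : ℝ) < 1 / 2)).mono fun _ h => h.le
  filter_upwards [h2] with k hk
  rw [Real.norm_of_nonneg (by positivity), Real.norm_of_nonneg (by positivity), tr_succ]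
  have h3 : D ^ (k + 1) * Q ^ (tr k + (k + 1)) = D * Q ^ (k + 1) * (D ^ k * Q ^ tr k) := by ring
  rw [h3]
  calc D * Q ^ (k + 1) * (D ^ k * Q ^ tr k) = D * Q ^ (k + 1) * (D ^ k * Q ^ tr k) := rfl
    _ ≤ 1 / 2 * (D ^ k * Q ^ tr k) := mul_le_mul_of_nonneg_right hk (by positivity)

end SMB2

open SMB2 in
/-- **SMB** -/
theorem smb_thm : SMBStmt := by
  intro Q C hQ0 hQ1 hC
  have h := half Q (C ^ 2) hQ0 hQ1 (by positivity)
  have he : HasSum (fun k : ℕ => (fun n : ℕ => C ^ n * Q ^ tr (n / 2)) (2 * k))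
      (∑' k : ℕ, (C ^ 2) ^ k * Q ^ tr k) := by
    have : (fun k : ℕ => (fun n : ℕ => C ^ n * Q ^ tr (n / 2)) (2 * k)) =
        fun k : ℕ => (C ^ 2) ^ k * Q ^ tr k := by
      funext k
      simp only
      rw [Nat.mul_div_cancel_left k (by norm_num), pow_mul]
    rw [this]
    exact h.hasSum
  have ho : HasSum (fun k : ℕ => (fun n : ℕ => C ^ n * Q ^ tr (n / 2)) (2 * k + 1))
      (C * ∑' k : ℕ, (C ^ 2) ^ k * Q ^ tr k) := by
    have : (fun k : ℕ => (fun n : ℕ => C ^ n * Q ^ tr (n / 2)) (2 * k + 1)) =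
        fun k : ℕ => C * ((C ^ 2) ^ k * Q ^ tr k) := by
      funext k
      simp only
      have h3 : (2 * k + 1) / 2 = k := by omega
      rw [h3, pow_succ, pow_mul]
      ring
    rw [this]
    exact h.hasSum.mul_left C
  exact (he.even_add_odd ho).summable

end Pool.QGR
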